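import Pool.Agent.Helper292.ForceCH

/-!
# `S_1(Γ_0, Ω_0)` for `C_p(X)` does not imply `S_1(Γ, Ω)` for `X`

Under CH we construct a set `X` in the Cantor set `K = 2^(ω × ω)` by a recursion of length `ω₁`.
For every `f ∈ ω^ω` it contains two points `x`, `y` such that for every `n` the `n`-th row of `x`
or of `y` has its last digit `1` at the place `f(n)`; the two points are otherwise generic. The
closed sets of points whose `n`-th row has its last digit `1` at the place `k` form a disjoint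
family, and their complements show that `X` does not satisfy `S_1(Γ, Ω)`.

On the other hand, let `O(n,k)`, `O'(n,k)` be open with `O(n,k) ∪ O'(n,k) = X` such that every point
of `X` is in `O(n,k)` for finitely many `k` only. A compactness argument gives a selection
`g ∈ ω^ω` such that generic pairs are in `O'(n,g(n))` for infinitely many `n`. This gives the
property of `C_p(X)`.
-/

set_option autoImplicit false

open Set Filter TopologicalSpace

namespace Pool.Agent.Results.MP_70f607_gt.LocalGlobal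

/-- The selection principle `S_1(𝔄, 𝔅)` for families of subsets of `Y`. -/
def S1 {Y : Type} (𝔄 𝔅 : Set (Set Y)) : Prop :=
  ∀ A : ℕ → Set Y, (∀ n, A n ∈ 𝔄) → ∃ a : ℕ → Y, (∀ n, a n ∈ A n) ∧ range a ∈ 𝔅

/-- `Γ`: the open `γ`-covers of `X`. -/
def Gam (X : Type) [TopologicalSpace X] : Set (Set (Set X)) :=
  {𝒰 | (∀ U ∈ 𝒰, IsOpen U) ∧ ⋃₀ 𝒰 = univ ∧ univ ∉ 𝒰 ∧ 𝒰.Infinite ∧ ∀ x, {U ∈ 𝒰 | x ∉ U}.Finite}

/-- `Ω`: the open `ω`-covers of `X`. -/
def Omg (X : Type) [TopologicalSpace X] : Set (Set (Set X)) :=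
  {𝒰 | (∀ U ∈ 𝒰, IsOpen U) ∧ ⋃₀ 𝒰 = univ ∧ univ ∉ 𝒰 ∧ ∀ F : Set X, F.Finite → ∃ U ∈ 𝒰, F ⊆ U}

/-- `Γ_y`: the countably infinite sets converging to `y`. -/
def GamAt {Y : Type} [TopologicalSpace Y] (y : Y) : Set (Set Y) :=
  {A | A.Countable ∧ A.Infinite ∧ y ∉ A ∧ ∀ U ∈ nhds y, (A \ U).Finite}

/-- `Ω_y`: the sets which have `y` in their closure but do not contain it. -/
def OmgAt {Y : Type} [TopologicalSpace Y] (y : Y) : Set (Set Y) :=
  {A | y ∈ closure A \ A}

/-- `C_p(X)`: the continuous real-valued functions on `X`, as a subspace of the product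
`X → ℝ`. -/
abbrev Cp (X : Type) [TopologicalSpace X] : Type := {f : X → ℝ // Continuous f}

/-- The zero function. -/
def zeroFn (X : Type) [TopologicalSpace X] : Cp X := ⟨fun _ => 0, continuous_const⟩

/-! ### The Cantor set and its rows -/

/-- The Cantor set. -/
abbrev K : Type := ℕ × ℕ → Bool

/-- The last digit `1` of the row `i` of `x` is at the place `c`. -/
def InE (x : K) (i c : ℕ) : Prop := x (i, c) = true ∧ ∀ j, c < j → x (i, j) = false

theorem InE.unique {x : K} {i c d : ℕ} (hc : InE x i c) (hd : InE x i d) : c = d := by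
  rcases lt_trichotomy c d with h | h | h
  · have := hc.2 d h; rw [hd.1] at this; exact absurd this (by simp)
  · exact h
  · have := hd.2 c h; rw [hc.1] at this; exact absurd this (by simp)

/-- `x` and `y` have the same digits in the square of size `m`. -/
def Agree (m : ℕ) (x y : K) : Prop := ∀ i j, i < m → j < m → x (i, j) = y (i, j)

theorem Agree.symm {m : ℕ} {x y : K} (h : Agree m x y) : Agree m y x :=
  fun i j hi hj => (h i j hi hj).symm

theorem Agree.trans {m : ℕ} {x y z : K} (h : Agree m x y) (h' : Agree m y z) : Agree m x z :=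
  fun i j hi hj => (h i j hi hj).trans (h' i j hi hj)

theorem Agree.mono {m n : ℕ} {x y : K} (h : Agree n x y) (hmn : m ≤ n) : Agree m x y :=
  fun i j hi hj => h i j (hi.trans_le hmn) (hj.trans_le hmn)

theorem exists_agree {U : Set K} (hU : IsOpen U) {x : K} (hx : x ∈ U) :
    ∃ m, ∀ y, Agree m x y → y ∈ U := by
  obtain ⟨s, u, hu, hs⟩ := isOpen_pi_iff.1 hU x hx
  refine ⟨(s.sup fun p => max p.1 p.2) + 1, fun y hy => hs ?_⟩
  intro p hp
  have h1 : max p.1 p.2 ≤ s.sup fun p => max p.1 p.2 := Finset.le_sup (f := fun p => max p.1 p.2) hp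
  have h2 : x p = y p := hy p.1 p.2 (by omega) (by omega)
  rw [← h2]
  exact (hu p hp).2

theorem isClopen_agree (m : ℕ) (x : K) : IsClopen {y | Agree m x y} := by
  have : {y | Agree m x y} = ⋂ p ∈ (Finset.range m ×ˢ Finset.range m : Finset (ℕ × ℕ)),
      {y : K | x p = y p} := by
    ext y
    simp only [mem_ofPred_eq, mem_iInter, Finset.mem_product, Finset.mem_range, Prod.forall]
    constructor
    · rintro h i j ⟨hi, hj⟩; exact h i j hi hj
    · intro h i j hi hj; exact h i j ⟨hi, hj⟩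
  rw [this]
  refine isClopen_biInter_finset fun p _ => ?_
  have h2 : {y : K | x p = y p} = (fun y : K => y p) ⁻¹' {x p} := by
    ext y; simp [eq_comm]
  rw [h2]
  exact (isClopen_discrete _).preimage (continuous_apply p)

/-- Pairs of points. -/
abbrev P : Type := K × K

theorem exists_agree_pair {U : Set P} (hU : IsOpen U) {p : P} (hp : p ∈ U) :
    ∃ m, ∀ q : P, Agree m p.1 q.1 → Agree m p.2 q.2 → q ∈ U := by
  obtain ⟨u, v, hu, hv, hpu, hpv, huv⟩ := isOpen_prod_iff.1 hU p.1 p.2 hp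
  obtain ⟨m, hm⟩ := exists_agree hu hpu
  obtain ⟨n, hn⟩ := exists_agree hv hpv
  exact ⟨max m n, fun q h1 h2 => huv ⟨hm _ (h1.mono (le_max_left _ _)),
    hn _ (h2.mono (le_max_right _ _))⟩⟩

/-- The point with finite support `A`. -/
def pt (A : Finset (ℕ × ℕ)) : K := fun p => decide (p ∈ A)

/-- The basic boxes. -/
def box (t : ℕ × Finset (ℕ × ℕ) × Finset (ℕ × ℕ)) : Set P :=
  {p | Agree t.1 (pt t.2.1) p.1 ∧ Agree t.1 (pt t.2.2) p.2}

theorem isClopen_box (t : ℕ × Finset (ℕ × ℕ) × Finset (ℕ × ℕ)) : IsClopen (box t) :=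
  (isClopen_agree t.1 (pt t.2.1)).prod (isClopen_agree t.1 (pt t.2.2))

theorem exists_pt (m : ℕ) (x : K) : ∃ A, Agree m (pt A) x := by
  refine ⟨(Finset.range m ×ˢ Finset.range m).filter fun p => x p = true, fun i j hi hj => ?_⟩
  simp only [pt, Finset.mem_filter, Finset.mem_product, Finset.mem_range, hi, hj, and_self,
    true_and]
  cases x (i, j) <;> simp

theorem exists_box {U : Set P} (hU : IsOpen U) {p : P} (hp : p ∈ U) :
    ∃ t, p ∈ box t ∧ box t ⊆ U := by
  obtain ⟨m, hm⟩ := exists_agree_pair hU hp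
  obtain ⟨A, hA⟩ := exists_pt m p.1
  obtain ⟨B, hB⟩ := exists_pt m p.2
  exact ⟨(m, A, B), ⟨hA, hB⟩, fun q hq => hm q (hA.symm.trans hq.1) (hB.symm.trans hq.2)⟩

/-- The closed set of pairs which code `f`. -/
def Z (f : ℕ → Option ℕ) : Set P :=
  {p | ∀ i c, f i = some c → InE p.1 i c ∨ InE p.2 i c}

theorem isClosed_InE (i c : ℕ) : IsClosed {x : K | InE x i c} := by
  have : {x : K | InE x i c} = {x : K | x (i, c) = true} ∩ ⋂ j, ⋂ _ : c < j,
      {x : K | x (i, j) = false} := by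
    ext x; simp [InE]
  rw [this]
  refine IsClosed.inter (isClosed_eq (continuous_apply _) continuous_const) ?_
  exact isClosed_iInter fun j => isClosed_iInter fun _ =>
    isClosed_eq (continuous_apply _) continuous_const

theorem isClosed_Z (f : ℕ → Option ℕ) : IsClosed (Z f) := by
  have : Z f = ⋂ i, ⋂ c, ⋂ _ : f i = some c, ({p : P | InE p.1 i c} ∪ {p : P | InE p.2 i c}) := by
    ext p; simp [Z]
  rw [this]
  exact isClosed_iInter fun i => isClosed_iInter fun c => isClosed_iInter fun _ =>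
    ((isClosed_InE i c).preimage continuous_fst).union ((isClosed_InE i c).preimage continuous_snd)

/-- A Baire category lemma. -/
theorem exists_generic {κ : Type} [Countable κ] {C : Set P} (hC : IsClosed C) (hCn : C.Nonempty)
    (O : κ → Set P) (hO : ∀ i, IsOpen (O i))
    (hd : ∀ i (t : Set P), IsOpen t → (C ∩ t).Nonempty → (C ∩ t ∩ O i).Nonempty) :
    ∃ p ∈ C, ∀ i, p ∈ O i := by
  have : CompactSpace C := isCompact_iff_compactSpace.1 hC.isCompact
  have : Nonempty C := hCn.to_subtype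
  have h1 : ∀ i, IsOpen (Subtype.val ⁻¹' O i : Set C) := fun i =>
    (hO i).preimage continuous_subtype_val
  have h2 : ∀ i, Dense (Subtype.val ⁻¹' O i : Set C) := by
    intro i
    rw [dense_iff_inter_open]
    intro s hs hsn
    obtain ⟨t, ht, rfl⟩ := isOpen_induced_iff.1 hs
    obtain ⟨⟨p, hp⟩, hpt⟩ := hsn
    obtain ⟨q, ⟨hq1, hq2⟩, hq3⟩ := hd i t ht ⟨p, hp, hpt⟩
    exact ⟨⟨q, hq1⟩, hq2, hq3⟩
  obtain ⟨p, hp⟩ := (dense_iInter_of_isOpen h1 h2).nonempty
  exact ⟨p, p.2, fun i => mem_iInter.1 hp i⟩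

/-! ### Modifications of points -/

/-- The rows of `x` before `M`, continued by rows which code `f`. -/
def ext (M : ℕ) (x : K) (f : ℕ → Option ℕ) : K :=
  fun q => if q.1 < M then x q else decide (f q.1 = some q.2)

theorem ext_agree (M : ℕ) (x : K) (f : ℕ → Option ℕ) : Agree M x (ext M x f) := by
  intro i j hi _
  simp [ext, hi]

theorem ext_row {M : ℕ} {x : K} {f : ℕ → Option ℕ} {i c : ℕ} (hi : i < M) (h : InE x i c) :
    InE (ext M x f) i c := by
  refine ⟨?_, fun j hj => ?_⟩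
  · simp only [ext, hi, if_true]; exact h.1
  · simp only [ext, hi, if_true]; exact h.2 j hj

theorem ext_code {M : ℕ} {x : K} {f : ℕ → Option ℕ} {i c : ℕ} (hi : M ≤ i) (h : f i = some c) :
    InE (ext M x f) i c := by
  refine ⟨?_, fun j hj => ?_⟩
  · simp [ext, not_lt.2 hi, h]
  · have : c ≠ j := by omega
    simp [ext, not_lt.2 hi, h, this]

/-- The points with finite support. -/
def X0 : Set K := {x | {q | x q = true}.Finite}

theorem exists_apx (M : ℕ) (x : K) :
    ∃ y ∈ X0, Agree M x y ∧ ∀ i c, i < M → InE x i c → InE y i c := by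
  classical
  let J : ℕ → ℕ := fun i => if h : ∃ c, InE x i c then h.choose + 1 else M
  let y : K := fun q => if q.1 < M ∧ (q.2 < M ∨ ∃ c, InE x q.1 c) then x q else false
  refine ⟨y, ?_, ?_, ?_⟩
  · refine ((Set.finite_Iio M).biUnion fun i _ => (finite_Iio (max M (J i))).image
      fun j => ((i, j) : ℕ × ℕ)).subset ?_
    rintro ⟨i, j⟩ hq
    have hq' : y (i, j) = true := hq
    by_cases hc : i < M ∧ (j < M ∨ ∃ c, InE x i c)
    · refine mem_biUnion (show i ∈ Iio M from hc.1) ⟨j, ?_, rfl⟩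
      rw [mem_Iio]
      rcases hc.2 with h | h
      · exact lt_max_of_lt_left h
      · refine lt_max_of_lt_right ?_
        simp only [J, dif_pos h]
        by_contra hj
        have h2 := h.choose_spec.2 j (by omega)
        simp only [y, hc, and_self, if_true] at hq'
        rw [h2] at hq'
        exact absurd hq' (by simp)
    · simp only [y, hc, if_false] at hq'
      exact absurd hq' (by simp)
  · intro i j hi hj
    simp [y, hi, hj]
  · intro i c hi hc
    have h : ∀ j, y (i, j) = x (i, j) := fun j => by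
      have : i < M ∧ (j < M ∨ ∃ c, InE x i c) := ⟨hi, Or.inr ⟨c, hc⟩⟩
      simp [y, this]
    exact ⟨(h c).trans hc.1, fun j hj => (h j).trans (hc.2 j hj)⟩

theorem exists_in_Z (f : ℕ → Option ℕ) {U : Set K} (hU : IsOpen U) (hX : X0 ⊆ U) {p : P}
    (hp : p ∈ Z f) (M : ℕ) :
    ∃ q ∈ Z f, Agree M p.1 q.1 ∧ Agree M p.2 q.2 ∧ q.1 ∈ U ∧ q.2 ∈ U := by
  obtain ⟨x2, hx2, hag2, hE2⟩ := exists_apx M p.1
  obtain ⟨m, hm⟩ := exists_agree hU (hX hx2)
  let M' := max M m
  let y1 := ext M p.2 f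
  obtain ⟨y2, hy2, hag3, hE3⟩ := exists_apx M' y1
  let x3 := ext M' x2 f
  have hMM : M ≤ M' := le_max_left _ _
  refine ⟨(x3, y2), ?_, ?_, ?_, ?_, hX hy2⟩
  · intro i c hic
    by_cases hi : i < M'
    · by_cases hiM : i < M
      · rcases hp i c hic with h | h
        · exact Or.inl (ext_row hi (hE2 i c hiM h))
        · exact Or.inr (hE3 i c hi (ext_row hiM h))
      · exact Or.inr (hE3 i c hi (ext_code (not_lt.1 hiM) hic))
    · exact Or.inl (ext_code (not_lt.1 hi) hic)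
  · exact hag2.trans ((ext_agree M' x2 f).mono hMM)
  · exact (ext_agree M p.2 f).trans (hag3.mono hMM)
  · exact hm _ ((ext_agree M' x2 f).mono (le_max_right _ _))

/-! ### Double sequences of pairs of open sets -/

/-- Double sequences of pairs of open sets whose unions contain the points of finite support. -/
abbrev Dat : Type := {W : ℕ → ℕ → Opens K × Opens K // ∀ n k, ∀ x ∈ X0,
  x ∈ (W n k).1 ∨ x ∈ (W n k).2}

/-- The number `k` is bad for the box `t` in the row `n`. -/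
def Bad (W : Dat) (n : ℕ) (t : ℕ × Finset (ℕ × ℕ) × Finset (ℕ × ℕ)) (k : ℕ) : Prop :=
  ∃ f, (Z f ∩ box t).Nonempty ∧ ∀ p ∈ Z f ∩ box t, ¬ (p.1 ∈ (W.1 n k).2 ∧ p.2 ∈ (W.1 n k).2)

/-- A bad number for `f` gives points near the pairs which code a limit of `f`. -/
theorem kill_step (W : Dat) (n k : ℕ) (t : ℕ × Finset (ℕ × ℕ) × Finset (ℕ × ℕ))
    (f f' : ℕ → Option ℕ) (hbad : ∀ p ∈ Z f ∩ box t, ¬ (p.1 ∈ (W.1 n k).2 ∧ p.2 ∈ (W.1 n k).2))
    (M : ℕ) (htM : t.1 ≤ M)
    (hM : ∀ i < M, (∀ c, f' i = some c → f i = some c) ∧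
      (f' i = none → f i = none ∨ ∃ c, M ≤ c ∧ f i = some c))
    (p : P) (hp : p ∈ Z f' ∩ box t) :
    ∃ q ∈ Z f', Agree M p.1 q.1 ∧ Agree M p.2 q.2 ∧
      (q.1 ∈ (W.1 n k).1 ∨ q.2 ∈ (W.1 n k).1) := by
  classical
  let x1 : K := fun q => if q.1 < M ∧ (f q.1 = f' q.1 ∨ q.2 < M) then p.1 q
    else decide (f q.1 = some q.2)
  let y1 : K := fun q => if q.1 < M then p.2 q else false
  have hZ1 : (x1, y1) ∈ Z f := by
    intro i c hic
    by_cases hi : i < M
    · by_cases hff : f i = f' i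
      · rcases hp.1 i c (hff ▸ hic) with h | h
        · refine Or.inl ⟨?_, fun j hj => ?_⟩
          · simp only [x1, hi, hff, true_or, and_self, if_true]; exact h.1
          · simp only [x1, hi, hff, true_or, and_self, if_true]; exact h.2 j hj
        · refine Or.inr ⟨?_, fun j hj => ?_⟩
          · simp only [y1, hi, if_true]; exact h.1
          · simp only [y1, hi, if_true]; exact h.2 j hj
      · have hnone : f' i = none := by
          rcases hfi : f' i with _ | d
          · rfl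
          · exact absurd ((hM i hi).1 d hfi |>.trans hfi.symm) hff
        have hMc : M ≤ c := by
          rcases (hM i hi).2 hnone with h | ⟨d, hd, hfd⟩
          · rw [h] at hic; exact absurd hic (by simp)
          · rw [hfd] at hic
            have := Option.some.inj hic
            omega
        refine Or.inl ⟨?_, fun j hj => ?_⟩
        · have h1 : ¬ (i < M ∧ (f i = f' i ∨ c < M)) := by
            rintro ⟨_, h | h⟩
            · exact hff h
            · omega
          show (if i < M ∧ (f i = f' i ∨ c < M) then p.1 (i, c) else decide (f i = some c)) = true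
          rw [if_neg h1]
          simp [hic]
        · have h1 : ¬ (i < M ∧ (f i = f' i ∨ j < M)) := by
            rintro ⟨_, h | h⟩
            · exact hff h
            · omega
          have h2 : c ≠ j := by omega
          show (if i < M ∧ (f i = f' i ∨ j < M) then p.1 (i, j) else decide (f i = some j)) = false
          rw [if_neg h1]
          simp [hic, h2]
    · refine Or.inl ⟨?_, fun j hj => ?_⟩
      · simp [x1, hi, hic]
      · have h2 : c ≠ j := by omega
        simp [x1, hi, hic, h2]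
  have hag1 : Agree M p.1 x1 := by
    intro i j hi hj
    simp [x1, hi, hj]
  have hag2 : Agree M p.2 y1 := by
    intro i j hi hj
    simp [y1, hi]
  obtain ⟨q, hqZ, hq1, hq2, hqU1, hqU2⟩ := exists_in_Z f
    (U := ((W.1 n k).1 : Set K) ∪ ((W.1 n k).2 : Set K))
    ((W.1 n k).1.2.union (W.1 n k).2.2) (fun x hx => W.2 n k x hx) hZ1 M
  have hpq1 : Agree M p.1 q.1 := hag1.trans hq1
  have hpq2 : Agree M p.2 q.2 := hag2.trans hq2
  have hqt : q ∈ box t := ⟨hp.2.1.trans (hpq1.mono htM), hp.2.2.trans (hpq2.mono htM)⟩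
  have hor : q.1 ∈ (W.1 n k).1 ∨ q.2 ∈ (W.1 n k).1 := by
    by_contra hcon
    push Not at hcon
    exact hbad q ⟨hqZ, hqt⟩ ⟨hqU1.resolve_left hcon.1, hqU2.resolve_left hcon.2⟩
  rcases hor with h | h
  · refine ⟨(q.1, ext M q.2 f'), ?_, hpq1, hpq2.trans (ext_agree M q.2 f'), Or.inl h⟩
    intro i c hic
    by_cases hi : i < M
    · rcases hqZ i c ((hM i hi).1 c hic) with h' | h'
      · exact Or.inl h'
      · exact Or.inr (ext_row hi h')
    · exact Or.inr (ext_code (not_lt.1 hi) hic)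
  · refine ⟨(ext M q.1 f', q.2), ?_, hpq1.trans (ext_agree M q.1 f'), hpq2, Or.inr h⟩
    intro i c hic
    by_cases hi : i < M
    · rcases hqZ i c ((hM i hi).1 c hic) with h' | h'
      · exact Or.inl (ext_row hi h')
      · exact Or.inr h'
    · exact Or.inl (ext_code (not_lt.1 hi) hic)

theorem exists_kill (W : Dat) (n : ℕ) (t : ℕ × Finset (ℕ × ℕ) × Finset (ℕ × ℕ))
    (hinf : {k | Bad W n t k}.Infinite) :
    ∃ f, (Z f ∩ box t).Nonempty ∧ ∀ m, ∀ s, IsOpen s → (Z f ∩ box t ∩ s).Nonempty →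
      (Z f ∩ box t ∩ s ∩ {p | ∃ k, m < k ∧ (p.1 ∈ (W.1 n k).1 ∨ p.2 ∈ (W.1 n k).1)}).Nonempty := by
  classical
  have hne : (cofinite ⊓ 𝓟 {k | Bad W n t k}).NeBot := cofinite_inf_principal_neBot_iff.2 hinf
  let 𝒱 : Ultrafilter ℕ := Ultrafilter.of (cofinite ⊓ 𝓟 {k | Bad W n t k})
  have h𝒱 : (𝒱 : Filter ℕ) ≤ cofinite ⊓ 𝓟 {k | Bad W n t k} := Ultrafilter.of_le _
  have hB : ∀ᶠ k in (𝒱 : Filter ℕ), Bad W n t k := h𝒱 (mem_inf_of_right (mem_principal_self _))
  have hcof : ∀ m : ℕ, ∀ᶠ k in (𝒱 : Filter ℕ), m < k := fun m =>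
    h𝒱 (mem_inf_of_left (by
      rw [Nat.cofinite_eq_atTop]
      exact Ioi_mem_atTop m))
  choose! F hF using fun k (hk : Bad W n t k) => hk
  let f' : ℕ → Option ℕ := fun i =>
    if h : ∃ c, ∀ᶠ k in (𝒱 : Filter ℕ), F k i = some c then some h.choose else none
  have hsome : ∀ i c, f' i = some c → ∀ᶠ k in (𝒱 : Filter ℕ), F k i = some c := by
    intro i c hic
    by_cases h : ∃ c, ∀ᶠ k in (𝒱 : Filter ℕ), F k i = some c
    · simp only [f', dif_pos h] at hic
      have := Option.some.inj hic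
      rw [← this]
      exact h.choose_spec
    · simp only [f', dif_neg h] at hic
      exact absurd hic (by simp)
  have hnone : ∀ i, f' i = none → ∀ M : ℕ, ∀ᶠ k in (𝒱 : Filter ℕ),
      F k i = none ∨ ∃ c, M ≤ c ∧ F k i = some c := by
    intro i hi M
    have h : ¬ ∃ c, ∀ᶠ k in (𝒱 : Filter ℕ), F k i = some c := by
      intro h
      simp only [f', dif_pos h] at hi
      exact absurd hi (by simp)
    push Not at h
    have h1 : ∀ c, ∀ᶠ k in (𝒱 : Filter ℕ), F k i ≠ some c := fun c => h c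
    have h2 : ∀ᶠ k in (𝒱 : Filter ℕ), ∀ c ∈ Iio M, F k i ≠ some c :=
      (eventually_all_finite (finite_Iio M)).2 fun c _ => h1 c
    filter_upwards [h2] with k hk
    rcases hFk : F k i with _ | c
    · exact Or.inl rfl
    · refine Or.inr ⟨c, ?_, rfl⟩
      by_contra hc
      exact hk c (not_le.1 hc) hFk
  have hM : ∀ M : ℕ, ∀ᶠ k in (𝒱 : Filter ℕ), ∀ i < M, (∀ c, f' i = some c → F k i = some c) ∧
      (f' i = none → F k i = none ∨ ∃ c, M ≤ c ∧ F k i = some c) := by
    intro M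
    refine (eventually_all_finite (finite_Iio M)).2 fun i _ => ?_
    refine Eventually.and ?_ ?_
    · rcases hfi : f' i with _ | d
      · exact Eventually.of_forall fun k c hc => absurd hc (by simp)
      · filter_upwards [hsome i d hfi] with k hk c hc
        rw [hk, ← hc]
    · rcases hfi : f' i with _ | d
      · filter_upwards [hnone i hfi M] with k hk _
        exact hk
      · exact Eventually.of_forall fun k hc => absurd hc (by simp)
  refine ⟨f', ?_, ?_⟩
  · obtain ⟨k, hk, hkM⟩ := (hB.and (hM t.1)).exists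
    obtain ⟨⟨p, hpZ, hpt⟩, _⟩ := hF k hk
    refine ⟨(ext t.1 p.1 f', ext t.1 p.2 f'), ?_, hpt.1.trans (ext_agree _ _ _),
      hpt.2.trans (ext_agree _ _ _)⟩
    intro i c hic
    by_cases hi : i < t.1
    · rcases hpZ i c ((hkM i hi).1 c hic) with h | h
      · exact Or.inl (ext_row hi h)
      · exact Or.inr (ext_row hi h)
    · exact Or.inl (ext_code (not_lt.1 hi) hic)
  · intro m s hs ⟨p, hp, hps⟩
    obtain ⟨M, hMs⟩ := exists_agree_pair hs hps
    obtain ⟨k, ⟨hk, hkM⟩, hmk⟩ := ((hB.and (hM (max t.1 M))).and (hcof m)).exists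
    obtain ⟨q, hqZ, hq1, hq2, hq⟩ := kill_step W n k t (F k) f' (hF k hk).2 (max t.1 M)
      (le_max_left _ _) hkM p hp
    refine ⟨q, ⟨⟨hqZ, ?_, ?_⟩, ?_⟩, k, hmk, hq⟩
    · exact hp.2.1.trans (hq1.mono (le_max_left _ _))
    · exact hp.2.2.trans (hq2.mono (le_max_left _ _))
    · exact hMs q (hq1.mono (le_max_right _ _)) (hq2.mono (le_max_right _ _))

/-- The selection `g` is good for `W`. -/
def Good (W : Dat) (g : ℕ → ℕ) : Prop := ∀ t, ∀ᶠ n in atTop, ¬ Bad W n t (g n)

theorem exists_good (W : Dat) (hW : ∀ n t, {k | Bad W n t k}.Finite) (S : Set K)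
    (hS : S.Countable) :
    ∃ g, Good W g ∧ ∀ x ∈ S, (∀ n, ∀ᶠ k in atTop, x ∈ (W.1 n k).2) →
      ∀ᶠ n in atTop, x ∈ (W.1 n (g n)).2 := by
  classical
  obtain ⟨t, ht⟩ := exists_surjective_nat (ℕ × Finset (ℕ × ℕ) × Finset (ℕ × ℕ))
  obtain ⟨c, hc⟩ := (hS.insert (fun _ => false)).exists_eq_range ⟨_, mem_insert _ _⟩
  have h : ∀ n, ∃ k, (∀ i ≤ n, ¬ Bad W n (t i) k) ∧
      ∀ i ≤ n, (∀ n, ∀ᶠ k in atTop, c i ∈ (W.1 n k).2) → c i ∈ (W.1 n k).2 := by
    intro n
    have h1 : ∀ᶠ k in atTop, ∀ i ∈ Iic n, ¬ Bad W n (t i) k :=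
      (eventually_all_finite (finite_Iic n)).2 fun i _ => by
        rw [← Nat.cofinite_eq_atTop]
        have := (hW n (t i)).compl_mem_cofinite
        filter_upwards [this] with k hk
        exact hk
    have h2 : ∀ᶠ k in atTop, ∀ i ∈ Iic n, (∀ n, ∀ᶠ k in atTop, c i ∈ (W.1 n k).2) →
        c i ∈ (W.1 n k).2 :=
      (eventually_all_finite (finite_Iic n)).2 fun i _ => by
        by_cases hi : ∀ n, ∀ᶠ k in atTop, c i ∈ (W.1 n k).2
        · filter_upwards [hi n] with k hk _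
          exact hk
        · exact Eventually.of_forall fun k hk => absurd hk hi
    exact (h1.and h2).exists
  choose g hg1 hg2 using h
  refine ⟨g, fun s => ?_, fun x hx hxW => ?_⟩
  · obtain ⟨i, rfl⟩ := ht s
    filter_upwards [eventually_ge_atTop i] with n hn
    exact hg1 n i hn
  · have : x ∈ range c := hc ▸ mem_insert_of_mem _ hx
    obtain ⟨i, rfl⟩ := this
    filter_upwards [eventually_ge_atTop i] with n hn
    exact hg2 n i hn hxW

theorem exists_point {κ μ : Type} [Countable κ] [Countable μ] (W : κ → Dat) (g : κ → ℕ → ℕ)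
    (N : κ → Set ℕ) (hN : ∀ i, (N i).Infinite) (hg : ∀ i, Good (W i) (g i))
    (f : ℕ → Option ℕ) (t : ℕ × Finset (ℕ × ℕ) × Finset (ℕ × ℕ)) (hft : (Z f ∩ box t).Nonempty)
    (O : μ → Set P) (hO : ∀ j, IsOpen (O j))
    (hOd : ∀ j s, IsOpen s → (Z f ∩ box t ∩ s).Nonempty → (Z f ∩ box t ∩ s ∩ O j).Nonempty) :
    ∃ p ∈ Z f ∩ box t, (∀ i, {n | n ∈ N i ∧ p.1 ∈ ((W i).1 n (g i n)).2 ∧
      p.2 ∈ ((W i).1 n (g i n)).2}.Infinite) ∧ ∀ j, p ∈ O j := by
  let O' : κ × ℕ → Set P := fun a => ⋃ n ∈ N a.1 ∩ Ioi a.2,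
    ((((W a.1).1 n (g a.1 n)).2 : Set K) ×ˢ (((W a.1).1 n (g a.1 n)).2 : Set K))
  have hO' : ∀ a, IsOpen (O' a) := fun a => isOpen_biUnion fun n _ =>
    (((W a.1).1 n (g a.1 n)).2.2).prod (((W a.1).1 n (g a.1 n)).2.2)
  obtain ⟨p, hp, hpO⟩ := exists_generic (κ := (κ × ℕ) ⊕ μ)
    ((isClosed_Z f).inter (isClopen_box t).1) hft (Sum.elim O' O) (by
      rintro (a | j)
      · exact hO' a
      · exact hO j) (by
      rintro (⟨i, m⟩ | j) s hs hsn
      · obtain ⟨p, ⟨hpZ, hpt⟩, hps⟩ := hsn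
        obtain ⟨t', hpt', ht's⟩ := exists_box (hs.inter (isClopen_box t).2) ⟨hps, hpt⟩
        obtain ⟨M, hM⟩ := eventually_atTop.1 (hg i t')
        obtain ⟨n, hn, hMn⟩ := (infinite_iff_exists_gt.1 (hN i)) (max m M)
        have h1 := hM n (by omega)
        unfold Bad at h1
        push Not at h1
        obtain ⟨q, ⟨hqZ, hqt⟩, hq⟩ := h1 f ⟨p, hpZ, hpt'⟩
        have h2 := ht's hqt
        exact ⟨q, ⟨⟨hqZ, h2.2⟩, h2.1⟩, mem_iUnion₂.2 ⟨n, ⟨hn, mem_Ioi.2 (by omega)⟩, hq⟩⟩
      · exact hOd j s hs hsn)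
  refine ⟨p, hp, fun i => ?_, fun j => hpO (Sum.inr j)⟩
  rw [infinite_iff_exists_gt]
  intro m
  obtain ⟨n, hn, hpn⟩ := mem_iUnion₂.1 (hpO (Sum.inl (i, m)))
  exact ⟨n, ⟨hn.1, hpn.1, hpn.2⟩, hn.2⟩

/-! ### The first uncountable ordinal -/

/-- The first uncountable ordinal, as a well-ordered type. -/
abbrev I : Type := (Cardinal.aleph 1).ord.ToType

theorem countable_Iio (a : I) : (Iio a).Countable := by
  have h : Cardinal.mk (Iio a) < Cardinal.aleph 1 := by
    have := Cardinal.mk_Iio_lt a (by simp)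
    simpa using this
  rw [← Cardinal.le_aleph0_iff_set_countable]
  exact Order.lt_succ_iff.1 (h.trans_eq Cardinal.succ_aleph0.symm)

theorem exists_rec {β : Type} (P : (a : I) → (Iio a → β) → β → Prop)
    (h : ∀ a f, ∃ y, P a f y) : ∃ F : I → β, ∀ a, P a (fun b => F b) (F a) := by
  choose c hc using h
  let F : I → β := (wellFounded_lt (α := I)).fix fun a ih => c a fun b => ih b.1 b.2
  refine ⟨F, fun a => ?_⟩
  have h1 : F a = c a fun b => F b := WellFounded.fix_eq _ _ _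
  rw [h1]
  exact hc a _

/-- `W` has a row with infinitely many bad numbers for a box. -/
def Kill (W : Dat) : Prop := ∃ n t, {k | Bad W n t k}.Infinite

/-- Both points of `p` are in the selected sets of the row `n`. -/
def In (W : Dat) (g : ℕ → ℕ) (n : ℕ) (p : P) : Prop :=
  p.1 ∈ (W.1 n (g n)).2 ∧ p.2 ∈ (W.1 n (g n)).2

theorem X0_eq : X0 = range pt := by
  ext x
  constructor
  · intro hx
    have hx' : {q | x q = true}.Finite := hx
    refine ⟨hx'.toFinset, ?_⟩
    funext q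
    show decide (q ∈ hx'.toFinset) = x q
    by_cases h : x q = true
    · rw [h, decide_eq_true_eq]
      exact hx'.mem_toFinset.2 h
    · rw [Bool.not_eq_true] at h
      rw [h, decide_eq_false_iff_not]
      intro h'
      have := hx'.mem_toFinset.1 h'
      rw [mem_ofPred_eq, h] at this
      exact absurd this (by simp)
  · rintro ⟨A, rfl⟩
    refine A.finite_toSet.subset fun q hq => ?_
    simpa [pt] using hq

theorem countable_X0 : X0.Countable := by
  rw [X0_eq]
  exact countable_range pt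

/-- The requirements on the value `y` at the stage `a`. -/
def Req (W : I → Dat) (f : I → ℕ → ℕ) (a : I) (v : Iio a → P × (ℕ → ℕ)) (y : P × (ℕ → ℕ)) : Prop :=
  (Kill (W a) → ∃ n, {k | y.1.1 ∈ ((W a).1 n k).1 ∨ y.1.2 ∈ ((W a).1 n k).1}.Infinite) ∧
  (¬ Kill (W a) → y.1 ∈ Z (fun i => some (f a i)) ∧ Good (W a) y.2 ∧
    ∀ x ∈ insert y.1.1 (insert y.1.2 (X0 ∪ ((range fun b => (v b).1.1) ∪
      range fun b => (v b).1.2))), (∀ n, ∀ᶠ k in atTop, x ∈ ((W a).1 n k).2) →
        ∀ᶠ n in atTop, x ∈ ((W a).1 n (y.2 n)).2) ∧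
  ∀ b : Iio a, Good (W b) (v b).2 → ∀ (A : Finset (Iio a)) (B : Finset (Finset (ℕ × ℕ))),
    {n | (∀ c ∈ A, In (W b) (v b).2 n (v c).1) ∧
      ∀ s ∈ B, pt s ∈ ((W b).1 n ((v b).2 n)).2}.Infinite →
    {n | ((∀ c ∈ A, In (W b) (v b).2 n (v c).1) ∧
      ∀ s ∈ B, pt s ∈ ((W b).1 n ((v b).2 n)).2) ∧ In (W b) (v b).2 n y.1}.Infinite

theorem Z_nonempty (f : ℕ → Option ℕ) : (Z f ∩ box (0, ∅, ∅)).Nonempty := by
  refine ⟨(ext 0 (pt ∅) f, pt ∅), fun i c hic => Or.inl ?_, ?_, ?_⟩
  · show InE (ext 0 (pt ∅) f) i c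
    exact ext_code (Nat.zero_le _) hic
  · intro i j hi; exact absurd hi (Nat.not_lt_zero _)
  · intro i j hi; exact absurd hi (Nat.not_lt_zero _)

theorem exists_req (W : I → Dat) (f : I → ℕ → ℕ) (a : I) (v : Iio a → P × (ℕ → ℕ)) :
    ∃ y, Req W f a v y := by
  classical
  have : Countable (Iio a) := (countable_Iio a).to_subtype
  let κ : Type := {q : Iio a × Finset (Iio a) × Finset (Finset (ℕ × ℕ)) //
    Good (W q.1) (v q.1).2 ∧ {n | (∀ c ∈ q.2.1, In (W q.1) (v q.1).2 n (v c).1) ∧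
      ∀ s ∈ q.2.2, pt s ∈ ((W q.1).1 n ((v q.1).2 n)).2}.Infinite}
  have key : ∀ (f' : ℕ → Option ℕ) (t : ℕ × Finset (ℕ × ℕ) × Finset (ℕ × ℕ))
      (_ : (Z f' ∩ box t).Nonempty) (O : ℕ → Set P) (_ : ∀ j, IsOpen (O j))
      (_ : ∀ j s, IsOpen s → (Z f' ∩ box t ∩ s).Nonempty → (Z f' ∩ box t ∩ s ∩ O j).Nonempty),
      ∃ p ∈ Z f' ∩ box t, (∀ b : Iio a, Good (W b) (v b).2 →
        ∀ (A : Finset (Iio a)) (B : Finset (Finset (ℕ × ℕ))),
        {n | (∀ c ∈ A, In (W b) (v b).2 n (v c).1) ∧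
          ∀ s ∈ B, pt s ∈ ((W b).1 n ((v b).2 n)).2}.Infinite →
        {n | ((∀ c ∈ A, In (W b) (v b).2 n (v c).1) ∧
          ∀ s ∈ B, pt s ∈ ((W b).1 n ((v b).2 n)).2) ∧ In (W b) (v b).2 n p}.Infinite) ∧
        ∀ j, p ∈ O j := by
    intro f' t hft O hO hOd
    obtain ⟨p, hp, h1, h2⟩ := exists_point (κ := κ) (μ := ℕ) (fun q => W q.1.1)
      (fun q => (v q.1.1).2) (fun q => {n | (∀ c ∈ q.1.2.1, In (W q.1.1) (v q.1.1).2 n (v c).1) ∧
        ∀ s ∈ q.1.2.2, pt s ∈ ((W q.1.1).1 n ((v q.1.1).2 n)).2}) (fun q => q.2.2)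
      (fun q => q.2.1) f' t hft O hO hOd
    exact ⟨p, hp, fun b hb A B hAB => h1 ⟨(b, A, B), hb, hAB⟩, h2⟩
  by_cases hK : Kill (W a)
  · obtain ⟨n, t, hinf⟩ := hK
    obtain ⟨f', hft, hd⟩ := exists_kill (W a) n t hinf
    obtain ⟨p, hp, h1, h2⟩ := key f' t hft
      (fun m => {p | ∃ k, m < k ∧ (p.1 ∈ ((W a).1 n k).1 ∨ p.2 ∈ ((W a).1 n k).1)}) (by
        intro m
        have : {p : P | ∃ k, m < k ∧ (p.1 ∈ ((W a).1 n k).1 ∨ p.2 ∈ ((W a).1 n k).1)} =
            ⋃ k, ⋃ _ : m < k, (Prod.fst ⁻¹' (((W a).1 n k).1 : Set K) ∪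
              Prod.snd ⁻¹' (((W a).1 n k).1 : Set K)) := by
          ext p; simp
        rw [this]
        exact isOpen_iUnion fun k => isOpen_iUnion fun _ =>
          (((W a).1 n k).1.2.preimage continuous_fst).union
            (((W a).1 n k).1.2.preimage continuous_snd)) (fun m s hs hsn => hd m s hs hsn)
    refine ⟨(p, fun _ => 0), fun _ => ⟨n, ?_⟩, fun h => absurd ⟨n, t, hinf⟩ h, h1⟩
    rw [infinite_iff_exists_gt]
    intro m
    obtain ⟨k, hk, hpk⟩ := h2 m
    exact ⟨k, hpk, hk⟩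
  · obtain ⟨p, hp, h1, -⟩ := key (fun i => some (f a i)) (0, ∅, ∅) (Z_nonempty _)
      (fun _ => univ) (fun _ => isOpen_univ) (fun _ s _ h => by simpa using h)
    have hfin : ∀ n t, {k | Bad (W a) n t k}.Finite := by
      intro n t
      by_contra h
      exact hK ⟨n, t, h⟩
    obtain ⟨g, hg1, hg2⟩ := exists_good (W a) hfin (insert p.1 (insert p.2
      (X0 ∪ ((range fun b => (v b).1.1) ∪ range fun b => (v b).1.2))))
      (((countable_X0.union ((countable_range _).union (countable_range _))).insert _).insert _)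
    exact ⟨(p, g), fun h => absurd h hK, fun _ => ⟨hp.1, hg1, hg2⟩, h1⟩

/-- The selection property of the set `X`. -/
def Sel (X : Set K) : Prop :=
  ∀ O O' : ℕ → ℕ → Set K, (∀ n k, IsOpen (O n k)) → (∀ n k, IsOpen (O' n k)) →
    (∀ n k, X ⊆ O n k ∪ O' n k) → (∀ n, ∀ x ∈ X, {k | x ∈ O n k}.Finite) →
      ∃ g : ℕ → ℕ, ∀ F : Set K, F.Finite → F ⊆ X → {n | F ⊆ O' n (g n)}.Infinite

theorem exists_set (W : I → Dat) (f : I → ℕ → ℕ)
    (hWf : ∀ (w : Dat) (h : ℕ → ℕ), ∃ a, W a = w ∧ f a = h) :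
    ∃ X : Set K, X0 ⊆ X ∧ (∀ h : ℕ → ℕ, ∃ p : P, p.1 ∈ X ∧ p.2 ∈ X ∧
      p ∈ Z (fun i => some (h i))) ∧ Sel X := by
  classical
  obtain ⟨F, hF⟩ := exists_rec (Req W f) (exists_req W f)
  let X : Set K := X0 ∪ ((range fun a => (F a).1.1) ∪ range fun a => (F a).1.2)
  refine ⟨X, subset_union_left, ?_, ?_⟩
  · intro h
    -- a double sequence which is never bad
    obtain ⟨a, ha, hfa⟩ := hWf ⟨fun _ _ => (⊥, ⊤), fun _ _ x _ => Or.inr trivial⟩ h
    have hK : ¬ Kill (W a) := by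
      rintro ⟨n, t, hinf⟩
      obtain ⟨k, f', ⟨p, hp⟩, hno⟩ := hinf.nonempty
      refine hno p hp ?_
      rw [ha]
      exact ⟨trivial, trivial⟩
    refine ⟨(F a).1, Or.inr (Or.inl ⟨a, rfl⟩), Or.inr (Or.inr ⟨a, rfl⟩), ?_⟩
    have := ((hF a).2.1 hK).1
    rwa [hfa] at this
  · intro O O' hO hO' hcov hfin
    obtain ⟨a, ha, -⟩ := hWf ⟨fun n k => (⟨O n k, hO n k⟩, ⟨O' n k, hO' n k⟩),
      fun n k x hx => hcov n k (Or.inl hx)⟩ (fun _ => 0)
    have hWO : ∀ n k, (((W a).1 n k).1 : Set K) = O n k := fun n k => by rw [ha]; rfl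
    have hWO' : ∀ n k, (((W a).1 n k).2 : Set K) = O' n k := fun n k => by rw [ha]; rfl
    have hK : ¬ Kill (W a) := by
      intro hK
      obtain ⟨n, hn⟩ := (hF a).1 hK
      refine hn (((hfin n (F a).1.1 (Or.inr (Or.inl ⟨a, rfl⟩))).union
        (hfin n (F a).1.2 (Or.inr (Or.inr ⟨a, rfl⟩)))).subset ?_)
      rintro k (hk | hk)
      · left
        show (F a).1.1 ∈ O n k
        rw [← hWO]
        exact hk
      · right
        show (F a).1.2 ∈ O n k
        rw [← hWO]
        exact hk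
    obtain ⟨-, hg1, hg2⟩ := (hF a).2.1 hK
    set g := (F a).2 with hg
    have hev : ∀ x ∈ X, ∀ n, ∀ᶠ k in atTop, x ∈ ((W a).1 n k).2 := by
      intro x hx n
      rw [← Nat.cofinite_eq_atTop]
      filter_upwards [(hfin n x hx).compl_mem_cofinite] with k hk
      have h1 := (hcov n k hx).resolve_left hk
      rw [← hWO'] at h1
      exact h1
    have hmain : ∀ (A : Finset I) (B : Finset (Finset (ℕ × ℕ))),
        {n | (∀ c ∈ A, In (W a) g n (F c).1) ∧ ∀ s ∈ B, pt s ∈ ((W a).1 n (g n)).2}.Infinite := by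
      intro A B
      induction A using Finset.induction_on_max with
      | empty =>
        have h1 : ∀ᶠ n in atTop, ∀ s ∈ B, pt s ∈ ((W a).1 n (g n)).2 :=
          (Finset.eventually_all B).2 fun s _ => hg2 (pt s)
            (Or.inr (Or.inr (Or.inl (X0_eq ▸ mem_range_self s))))
            (hev _ (Or.inl (X0_eq ▸ mem_range_self s)))
        obtain ⟨M, hM⟩ := eventually_atTop.1 h1
        exact (Ici_infinite M).mono fun n hn => ⟨by simp, hM n hn⟩
      | insert b s hbs ih =>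
        rcases le_or_gt b a with hab | hab
        · have h1 : ∀ᶠ n in atTop, ∀ s ∈ B, pt s ∈ ((W a).1 n (g n)).2 :=
            (Finset.eventually_all B).2 fun s _ => hg2 (pt s)
              (Or.inr (Or.inr (Or.inl (X0_eq ▸ mem_range_self s))))
              (hev _ (Or.inl (X0_eq ▸ mem_range_self s)))
          have h2 : ∀ᶠ n in atTop, ∀ c ∈ insert b s, In (W a) g n (F c).1 := by
            refine (Finset.eventually_all _).2 fun c hc => ?_
            have hca : c ≤ a := by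
              rcases Finset.mem_insert.1 hc with rfl | hc
              · exact hab
              · exact ((hbs c hc).trans_le hab).le
            have hX1 : (F c).1.1 ∈ X := Or.inr (Or.inl ⟨c, rfl⟩)
            have hX2 : (F c).1.2 ∈ X := Or.inr (Or.inr ⟨c, rfl⟩)
            rcases hca.lt_or_eq with h | h
            · exact (hg2 _ (Or.inr (Or.inr (Or.inr (Or.inl ⟨⟨c, h⟩, rfl⟩)))) (hev _ hX1)).and
                (hg2 _ (Or.inr (Or.inr (Or.inr (Or.inr ⟨⟨c, h⟩, rfl⟩)))) (hev _ hX2))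
            · rw [h] at hX1 hX2 ⊢
              exact (hg2 _ (Or.inl rfl) (hev _ hX1)).and (hg2 _ (Or.inr (Or.inl rfl)) (hev _ hX2))
          obtain ⟨M, hM⟩ := eventually_atTop.1 (h2.and h1)
          exact (Ici_infinite M).mono fun n hn => hM n hn
        · have h1 := (hF b).2.2 ⟨a, hab⟩ hg1 (s.subtype (· < b)) B (by
            refine ih.mono fun n hn => ⟨fun c hc => ?_, hn.2⟩
            exact hn.1 c (Finset.mem_subtype.1 hc))
          refine h1.mono fun n hn => ⟨fun c hc => ?_, hn.1.2⟩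
          rcases Finset.mem_insert.1 hc with rfl | hc
          · exact hn.2
          · exact hn.1.1 ⟨c, hbs c hc⟩ (Finset.mem_subtype.2 hc)
    refine ⟨g, fun G hG hGX => ?_⟩
    have hsel : ∀ x ∈ X, (∃ s, x = pt s) ∨ ∃ c : I, x = (F c).1.1 ∨ x = (F c).1.2 := by
      rintro x (hx | ⟨c, rfl⟩ | ⟨c, rfl⟩)
      · rw [X0_eq] at hx
        obtain ⟨s, rfl⟩ := hx
        exact Or.inl ⟨s, rfl⟩
      · exact Or.inr ⟨c, Or.inl rfl⟩
      · exact Or.inr ⟨c, Or.inr rfl⟩
    have hAB : ∃ (A : Finset I) (B : Finset (Finset (ℕ × ℕ))), ∀ x ∈ G,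
        (∃ s ∈ B, x = pt s) ∨ ∃ c ∈ A, x = (F c).1.1 ∨ x = (F c).1.2 := by
      induction G, hG using Set.Finite.induction_on with
      | empty => exact ⟨∅, ∅, by simp⟩
      | insert _ _ ih =>
        rename_i x G _ _
        obtain ⟨A, B, hAB⟩ := ih (fun y hy => hGX (Or.inr hy))
        rcases hsel x (hGX (Or.inl rfl)) with ⟨s, hs⟩ | ⟨c, hc⟩
        · refine ⟨A, insert s B, fun y hy => ?_⟩
          rcases hy with rfl | hy
          · exact Or.inl ⟨s, Finset.mem_insert_self _ _, hs⟩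
          · rcases hAB y hy with ⟨s', hs', h⟩ | ⟨c, hc, h⟩
            · exact Or.inl ⟨s', Finset.mem_insert_of_mem hs', h⟩
            · exact Or.inr ⟨c, hc, h⟩
        · refine ⟨insert c A, B, fun y hy => ?_⟩
          rcases hy with rfl | hy
          · exact Or.inr ⟨c, Finset.mem_insert_self _ _, hc⟩
          · rcases hAB y hy with ⟨s', hs', h⟩ | ⟨c', hc', h⟩
            · exact Or.inl ⟨s', hs', h⟩
            · exact Or.inr ⟨c', Finset.mem_insert_of_mem hc', h⟩
    obtain ⟨A, B, hAB⟩ := hAB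
    refine (hmain A B).mono fun n hn x hx => ?_
    have h2 : x ∈ ((W a).1 n (g n)).2 := by
      rcases hAB x hx with ⟨s, hs, rfl⟩ | ⟨c, hc, h⟩
      · exact hn.2 s hs
      · rcases h with h | h
        · rw [h]; exact (hn.1 c hc).1
        · rw [h]; exact (hn.1 c hc).2
    rw [← hWO']
    exact h2

/-! ### Transfer to the irrational numbers -/

theorem exists_embedding : ∃ e : K → ℝ, Continuous e ∧ Function.Injective e ∧
    ∀ x, Irrational (e x) := by
  obtain ⟨G, hG, hGo, hGv⟩ := (range ((↑) : ℚ → ℝ)).exists_isOpen_lt_of_lt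
    (μ := MeasureTheory.volume) 1 (by
      rw [(countable_range ((↑) : ℚ → ℝ)).measure_zero MeasureTheory.volume]
      exact zero_lt_one)
  have hC : IsClosed (Icc (0 : ℝ) 1 \ G) := isClosed_Icc.sdiff hGo
  have hunc : ¬ (Icc (0 : ℝ) 1 \ G).Countable := by
    intro hc
    have h1 : MeasureTheory.volume (Icc (0 : ℝ) 1) ≤ MeasureTheory.volume (Icc (0 : ℝ) 1 \ G) +
        MeasureTheory.volume G := by
      refine (MeasureTheory.measure_mono ?_).trans (MeasureTheory.measure_union_le _ _)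
      intro x hx
      by_cases h : x ∈ G
      · exact Or.inr h
      · exact Or.inl ⟨hx, h⟩
    rw [hc.measure_zero MeasureTheory.volume, zero_add] at h1
    have h2 : MeasureTheory.volume (Icc (0 : ℝ) 1) = 1 := by simp
    rw [h2] at h1
    exact absurd hGv (not_lt.2 h1)
  obtain ⟨f, hf, hfc, hfi⟩ := hC.exists_nat_bool_injection_of_not_countable hunc
  refine ⟨fun x => f fun n => x (Nat.unpair n), hfc.comp (by fun_prop), ?_, ?_⟩
  · intro x y hxy
    have h := hfi hxy
    funext q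
    have h2 := congrFun h (Nat.pair q.1 q.2)
    simpa [Nat.unpair_pair] using h2
  · intro x hx
    have h1 := hf (mem_range_self fun n => x (Nat.unpair n))
    exact h1.2 (hG hx)

theorem exists_zero_nhd {X : Type} [TopologicalSpace X] {U : Set (Cp X)}
    (hU : U ∈ nhds (zeroFn X)) :
    ∃ (F : Finset X) (ε : ℝ), 0 < ε ∧ ∀ h : Cp X, (∀ x ∈ F, |h.1 x| < ε) → h ∈ U := by
  classical
  obtain ⟨O, hOU, hO, h0⟩ := mem_nhds_iff.1 hU
  obtain ⟨O', hO', rfl⟩ := isOpen_induced_iff.1 hO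
  obtain ⟨F, V, hV, hsub⟩ := isOpen_pi_iff.1 hO' (zeroFn X).1 h0
  have hx : ∀ x, ∃ ε : ℝ, 0 < ε ∧ (x ∈ F → Metric.ball (0 : ℝ) ε ⊆ V x) := by
    intro x
    by_cases hx : x ∈ F
    · obtain ⟨ε, hε, h⟩ := Metric.isOpen_iff.1 (hV x hx).1 0 (hV x hx).2
      exact ⟨ε, hε, fun _ => h⟩
    · exact ⟨1, one_pos, fun h => absurd h hx⟩
  choose ε hε hεV using hx
  obtain ⟨δ, hδ, hδF⟩ : ∃ δ : ℝ, 0 < δ ∧ ∀ x ∈ F, δ ≤ ε x := by
    clear hsub hV
    induction F using Finset.induction_on with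
    | empty => exact ⟨1, one_pos, by simp⟩
    | insert a s _ ih =>
      obtain ⟨δ, hδ, h⟩ := ih (fun x hx => hεV x (Finset.mem_insert_of_mem hx))
      refine ⟨min δ (ε a), lt_min hδ (hε a), fun x hx => ?_⟩
      rcases Finset.mem_insert.1 hx with rfl | hx
      · exact min_le_right _ _
      · exact (min_le_left _ _).trans (h x hx)
  refine ⟨F, δ, hδ, fun h hh => hOU (hsub fun x hx => hεV x hx ?_)⟩
  rw [Metric.mem_ball, Real.dist_eq, sub_zero]
  exact (hh x hx).trans_le (hδF x hx)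

theorem mk_opens_le : Cardinal.mk (Opens K) ≤ Cardinal.continuum := by
  obtain ⟨b, hbc, hbe, hb⟩ := exists_countable_basis K
  have hinj : Function.Injective (fun U : Opens K => {s : b | (s : Set K) ⊆ U}) := by
    intro U V hUV
    have h : ∀ s : b, (s : Set K) ⊆ U ↔ (s : Set K) ⊆ V := fun s => by
      have := Set.ext_iff.1 hUV s
      exact this
    have aux : ∀ U V : Opens K, (∀ s : b, (s : Set K) ⊆ U ↔ (s : Set K) ⊆ V) → U ≤ V := by
      intro U V h x hx
      obtain ⟨s, hs, hxs, hsU⟩ := hb.exists_subset_of_mem_open hx U.2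
      exact (h ⟨s, hs⟩).1 hsU hxs
    exact le_antisymm (aux U V h) (aux V U fun s => (h s).symm)
  calc Cardinal.mk (Opens K) ≤ Cardinal.mk (Set b) := Cardinal.mk_le_of_injective hinj
    _ = 2 ^ Cardinal.mk b := Cardinal.mk_set
    _ ≤ 2 ^ Cardinal.aleph0 :=
      Cardinal.power_le_power_left two_ne_zero (Cardinal.le_aleph0_iff_set_countable.2 hbc)
    _ = Cardinal.continuum := Cardinal.two_power_aleph0

theorem mk_dat_le : Cardinal.mk (Dat × (ℕ → ℕ)) ≤ Cardinal.continuum := by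
  have h1 : Cardinal.mk (ℕ → ℕ → Opens K × Opens K) ≤ Cardinal.continuum := by
    have h : Cardinal.mk (ℕ → ℕ → Opens K × Opens K) =
        ((Cardinal.mk (Opens K) * Cardinal.mk (Opens K)) ^ Cardinal.aleph0) ^ Cardinal.aleph0 := by
      simp
    rw [h]
    calc _ ≤ ((Cardinal.continuum * Cardinal.continuum) ^ Cardinal.aleph0) ^ Cardinal.aleph0 :=
          Cardinal.power_le_power_right (Cardinal.power_le_power_right
            (mul_le_mul' mk_opens_le mk_opens_le))
      _ = _ := by simp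
  have h2 : Cardinal.mk Dat ≤ Cardinal.continuum := (Cardinal.mk_subtype_le _).trans h1
  calc Cardinal.mk (Dat × (ℕ → ℕ)) = Cardinal.mk Dat * Cardinal.mk (ℕ → ℕ) := by simp
    _ ≤ Cardinal.continuum * Cardinal.continuum := mul_le_mul' h2 (by simp)
    _ = Cardinal.continuum := by simp

theorem exists_enum (hCH : Cardinal.aleph 1 = Cardinal.continuum.{0}) :
    ∃ (W : I → Dat) (f : I → ℕ → ℕ), ∀ (w : Dat) (h : ℕ → ℕ), ∃ a, W a = w ∧ f a = h := by
  have h1 : Cardinal.mk (Dat × (ℕ → ℕ)) ≤ Cardinal.mk I := by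
    have : Cardinal.mk I = Cardinal.continuum := by simp [hCH]
    rw [this]
    exact mk_dat_le
  obtain ⟨e⟩ := Cardinal.le_def _ _ |>.1 h1
  have : Nonempty (Dat × (ℕ → ℕ)) :=
    ⟨(⟨fun _ _ => (⊥, ⊤), fun _ _ x _ => Or.inr trivial⟩, fun _ => 0)⟩
  have hs := Function.invFun_surjective e.injective
  refine ⟨fun a => (Function.invFun e a).1, fun a => (Function.invFun e a).2, fun w h => ?_⟩
  obtain ⟨a, ha⟩ := hs (w, h)
  exact ⟨a, congrArg Prod.fst ha, congrArg Prod.snd ha⟩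

theorem main (hCH : Cardinal.aleph 1 = Cardinal.continuum.{0}) :
    ∃ X : Set ℝ, (∀ x ∈ X, Irrational x) ∧
      S1 (GamAt (zeroFn X)) (OmgAt (zeroFn X)) ∧ ¬ S1 (Gam X) (Omg X) := by
  classical
  obtain ⟨W, f, hWf⟩ := exists_enum hCH
  obtain ⟨T, hT0, hTc, hTs⟩ := exists_set W f hWf
  obtain ⟨e, he, hei, heI⟩ := exists_embedding
  have hem : Topology.IsClosedEmbedding e := he.isClosedEmbedding hei
  let X : Set ℝ := e '' T
  let up : ∀ x ∈ T, X := fun x hx => ⟨e x, x, hx, rfl⟩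
  have hopen : ∀ U : Set X, IsOpen U → ∃ O : Set K, IsOpen O ∧
      ∀ x (hx : x ∈ T), x ∈ O ↔ up x hx ∈ U := by
    intro U hU
    obtain ⟨V, hV, rfl⟩ := isOpen_induced_iff.1 hU
    exact ⟨e ⁻¹' V, hV.preimage he, fun x hx => Iff.rfl⟩
  refine ⟨X, ?_, ?_, ?_⟩
  · rintro _ ⟨x, _, rfl⟩
    exact heI x
  · -- the local property
    intro A hA
    let F : ℕ → ℕ → Cp X := fun n k => ((hA n).2.1.natEmbedding (A n) k : Cp X)
    have hFA : ∀ n k, F n k ∈ A n := fun n k => ((hA n).2.1.natEmbedding (A n) k).2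
    have hFinj : ∀ n, Function.Injective (F n) := fun n =>
      Subtype.val_injective.comp ((hA n).2.1.natEmbedding (A n)).injective
    have hpos : ∀ n : ℕ, (0 : ℝ) < 1 / ((n : ℝ) + 1) := fun n => by positivity
    choose O hO hOU using fun (n k : ℕ) => hopen {y : X | 1 / ((n : ℝ) + 1) / 2 < |(F n k).1 y|}
      (isOpen_lt continuous_const (F n k).2.abs)
    choose O' hO' hO'U using fun (n k : ℕ) => hopen {y : X | |(F n k).1 y| < 1 / ((n : ℝ) + 1)}
      (isOpen_lt (F n k).2.abs continuous_const)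
    obtain ⟨g, hg⟩ := hTs O O' hO hO' (by
      intro n k x hx
      by_cases h : |(F n k).1 (up x hx)| < 1 / ((n : ℝ) + 1)
      · exact Or.inr ((hO'U n k x hx).2 h)
      · refine Or.inl ((hOU n k x hx).2 ?_)
        have := hpos n
        show 1 / ((n : ℝ) + 1) / 2 < |(F n k).1 (up x hx)|
        push Not at h
        linarith) (by
      intro n x hx
      have hU : {h : Cp X | |h.1 (up x hx)| < 1 / ((n : ℝ) + 1) / 2} ∈ nhds (zeroFn X) := by
        refine IsOpen.mem_nhds ?_ ?_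
        · have hc : Continuous fun h : Cp X => |h.1 (up x hx)| :=
            ((continuous_apply (up x hx)).comp continuous_subtype_val).abs
          exact isOpen_lt hc continuous_const
        · have h2 := half_pos (hpos n)
          show |(0 : ℝ)| < 1 / ((n : ℝ) + 1) / 2
          rw [abs_zero]
          exact h2
      have h1 := (hA n).2.2.2 _ hU
      refine (h1.preimage ((hFinj n).injOn)).subset ?_
      intro k hk
      refine ⟨hFA n k, fun hcon => ?_⟩
      have h2 := (hOU n k x hx).1 hk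
      have h3 : |(F n k).1 (up x hx)| < 1 / ((n : ℝ) + 1) / 2 := hcon
      have h4 : 1 / ((n : ℝ) + 1) / 2 < |(F n k).1 (up x hx)| := h2
      exact lt_asymm h3 h4)
    refine ⟨fun n => F n (g n), fun n => hFA n (g n), ?_, ?_⟩
    · rw [mem_closure_iff_nhds]
      intro U hU
      obtain ⟨G, ε, hε, hG⟩ := exists_zero_nhd hU
      obtain ⟨N, hN⟩ := exists_nat_one_div_lt hε
      have hGT : ∀ y ∈ G, ∃ x, ∃ hx : x ∈ T, up x hx = y := by
        rintro ⟨_, x, hx, rfl⟩ _
        exact ⟨x, hx, rfl⟩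
      choose! d hd using hGT
      have hfin : (d '' (G : Set X)).Finite := G.finite_toSet.image d
      obtain ⟨n, hn, hNn⟩ := infinite_iff_exists_gt.1 (hg _ hfin (by
        rintro _ ⟨y, hy, rfl⟩
        exact (hd y hy).1)) N
      refine ⟨F n (g n), hG _ fun y hy => ?_, n, rfl⟩
      obtain ⟨hdT, hdy⟩ := hd y hy
      have h1 : d y ∈ O' n (g n) := hn ⟨y, hy, rfl⟩
      have h2 : |(F n (g n)).1 (up (d y) hdT)| < 1 / ((n : ℝ) + 1) := (hO'U n (g n) _ hdT).1 h1
      rw [hdy] at h2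
      refine h2.trans (lt_of_le_of_lt ?_ hN)
      exact one_div_le_one_div_of_le (by positivity) (by exact_mod_cast (by omega : N + 1 ≤ n + 1))
    · rintro ⟨n, hn⟩
      exact (hA n).2.2.1 (hn ▸ hFA n (g n))
  · -- the global property fails
    intro hS
    let V : ℕ → ℕ → Set X := fun n k => {y | ∀ x, e x = y → ¬ InE x n k}
    have hV : ∀ n k x (hx : x ∈ T), up x hx ∈ V n k ↔ ¬ InE x n k := by
      intro n k x hx
      constructor
      · intro h
        exact h x rfl
      · intro h x' hx'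
        rw [hei hx']
        exact h
    have hVo : ∀ n k, IsOpen (V n k) := by
      intro n k
      have h1 : V n k = Subtype.val ⁻¹' (e '' {x | InE x n k})ᶜ := by
        ext y
        constructor
        · rintro h ⟨x, hx, hxy⟩
          exact h x hxy hx
        · intro h x hxy hx
          exact h ⟨x, hx, hxy⟩
      rw [h1]
      exact (hem.isClosedMap _ (isClosed_InE n k)).isOpen_compl.preimage continuous_subtype_val
    -- points of finite support
    have hpt : ∀ n k, pt {(n, k)} ∈ T ∧ InE (pt {(n, k)}) n k := by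
      intro n k
      refine ⟨hT0 (X0_eq ▸ mem_range_self _), by simp [pt], fun j hj => ?_⟩
      have : j ≠ k := by omega
      simp [pt, this]
    have hne : ∀ n k, ∃ y, y ∉ V n k ∧ ∀ l, l ≠ k → y ∈ V n l := by
      intro n k
      refine ⟨up _ (hpt n k).1, fun h => (hV n k _ (hpt n k).1).1 h (hpt n k).2, fun l hl => ?_⟩
      exact (hV n l _ (hpt n k).1).2 fun h => hl (h.unique (hpt n k).2)
    have hVinj : ∀ n, Function.Injective (V n) := by
      intro n k l hkl
      by_contra h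
      obtain ⟨y, hy1, hy2⟩ := hne n k
      exact hy1 (hkl ▸ hy2 l (Ne.symm h))
    have hx1 : ∀ n (y : X), {U ∈ range (V n) | y ∉ U}.Finite := by
      rintro n ⟨_, x, hx, rfl⟩
      have h1 : {U ∈ range (V n) | up x hx ∉ U} ⊆ V n '' {k | InE x n k} := by
        rintro _ ⟨⟨k, rfl⟩, hk⟩
        refine ⟨k, ?_, rfl⟩
        by_contra h
        exact hk ((hV n k x hx).2 h)
      refine Finite.subset (Finite.image _ ?_) h1
      refine Set.Subsingleton.finite ?_
      intro k hk l hl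
      exact InE.unique hk hl
    obtain ⟨U, hU, hUΩ⟩ := hS (fun n => range (V n)) (by
      intro n
      refine ⟨?_, ?_, ?_, infinite_range_of_injective (hVinj n), hx1 n⟩
      · rintro _ ⟨k, rfl⟩; exact hVo n k
      · refine eq_univ_of_forall fun y => ?_
        by_contra h
        have h2 : range (V n) ⊆ {U ∈ range (V n) | y ∉ U} := by
          intro U hU
          refine ⟨hU, fun hy => h ⟨U, hU, hy⟩⟩
        exact infinite_range_of_injective (hVinj n) ((hx1 n y).subset h2)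
      · rintro ⟨k, hk⟩
        obtain ⟨y, hy, _⟩ := hne n k
        exact hy (hk ▸ mem_univ y))
    choose h hh using hU
    obtain ⟨p, hp1, hp2, hpZ⟩ := hTc h
    obtain ⟨_, ⟨n, rfl⟩, hn⟩ := hUΩ.2.2.2 {up p.1 hp1, up p.2 hp2} (toFinite _)
    rw [← hh n] at hn
    rcases hpZ n (h n) rfl with h1 | h1
    · exact (hV n (h n) _ hp1).1 (hn (by simp)) h1
    · exact (hV n (h n) _ hp2).1 (hn (by simp)) h1

/-- **Main result.** (1) The continuum hypothesis can be forced. (2) Under the continuum hypothesis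
there is a set `X` of irrational numbers such that `C_p(X)` satisfies `S_1(Γ_0, Ω_0)` while `X` does
not satisfy `S_1(Γ, Ω)`. -/
theorem result :
    (∃ (P : Type) (_ : Preorder P), Nonempty P ∧ ∀ p : P,
      p ∈ Pool.Agent.Helper292.ForceCH.OmegaOnePreserved P ∧
      p ∈ Pool.Agent.Helper292.ForceCH.CHHolds P) ∧
    (Cardinal.aleph 1 = Cardinal.continuum.{0} →
      ∃ X : Set ℝ, (∀ x ∈ X, Irrational x) ∧
        S1 (GamAt (zeroFn X)) (OmgAt (zeroFn X)) ∧ ¬ S1 (Gam X) (Omg X)) := by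
  refine ⟨?_, main⟩
  obtain ⟨P, i, h1, h2⟩ := Pool.Agent.Helper292.ForceCH.exists_forcing
  exact ⟨P, i, h1, fun p => ⟨(h2 p).1, (h2 p).2.2⟩⟩

end Pool.Agent.Results.MP_70f607_gt.LocalGlobal
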